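import Pool.Agent.H39.Seed.Maj

set_option autoImplicit false

/-!
# Well-covered seeds and median graphs

`famGraph K` is the graph of a family `K` of subsets of a finite set: two members are adjacent if
they differ in exactly one element (an induced subgraph of a cube). If `K` is closed under
majorities (these are the median graphs) then `famGraph K` is the `i`-graph of a well-covered graph.
The converse holds if the families `cubes K Y`, for `Y` with at most one element, are isometric
subgraphs of the cube, in particular for all ample families. For simplicial complexes `K` this gives: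
the graph of the faces has a well-covered seed if and only if `K` is a flag complex.

More generally `hamGraph K`, the induced subgraph of a Hamming graph on a set `K` of words of
length `|ι|` over a finite alphabet, has a well-covered seed if `K` is closed under some
majority operation in every position.
-/

namespace Pool.Agent.Results.MP_89d95d_co.MedianSeeds

open Pool.Agent.H39.Seed Pool.Agent.H39.Seed.Maj

/-- The family is ample (lopsided): for every `Y` the family `cubes K Y` is isometric. -/
def Ample {ι : Type} [Fintype ι] [DecidableEq ι] (K : Set (Finset ι)) : Prop :=
  ∀ Y : Finset ι, Isometric (cubes K Y)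

/-- The statement on families of sets. -/
def Families (ι : Type) [Fintype ι] [DecidableEq ι] (K : Set (Finset ι)) : Prop :=
  (MedianClosed K → HasSeed (famGraph K)) ∧
  ((∀ Y : Finset ι, Y.card ≤ 1 → Isometric (cubes K Y)) →
    (HasSeed (famGraph K) ↔ MedianClosed K)) ∧
  (Ample K → (HasSeed (famGraph K) ↔ MedianClosed K)) ∧
  (DownClosed K → (HasSeed (famGraph K) ↔ Flag K))

theorem families (ι : Type) [Fintype ι] [DecidableEq ι] (K : Set (Finset ι)) (hne : K.Nonempty) :
    Families ι K := by
  have main : Isometric K → (∀ i, Isometric (red K i)) →
      (HasSeed (famGraph K) ↔ MedianClosed K) := fun h1 h2 =>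
    ⟨fun h => median_of h1 h2 (cc_of_seed h), hasSeed_of_median hne⟩
  have main' : (∀ Y : Finset ι, Y.card ≤ 1 → Isometric (cubes K Y)) →
      (HasSeed (famGraph K) ↔ MedianClosed K) := by
    intro h
    apply main
    · have h1 := h ∅ (by simp)
      rwa [cubes_empty] at h1
    · intro i
      have h1 := h {i} (by simp)
      rwa [cubes_single] at h1
  refine ⟨hasSeed_of_median hne, main', fun h => main' (fun Y _ => h Y), ?_⟩
  intro hD
  rw [← flag_iff hne hD]
  exact main (isometric_of_down hD) (fun i => isometric_of_down (red_down hD i))

theorem result :
    (∀ (ι : Type) [Fintype ι] [DecidableEq ι] (K : Set (Finset ι)), K.Nonempty → Families ι K) ∧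
    (∀ (ι α : Type) [Fintype ι] [DecidableEq ι] [Fintype α] [DecidableEq α]
      (m : ι → α → α → α → α) (K : Set (ι → α)), K.Nonempty → IsMajority m → ClosedUnder m K →
      HasSeed (hamGraph K)) := by
  refine ⟨?_, ?_⟩
  · intro ι _ _ K hne
    exact families ι K hne
  · intro ι α _ _ _ _ m K hne hm hK
    exact Maj.hasSeed hm hK hne

end Pool.Agent.Results.MP_89d95d_co.MedianSeeds
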